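import Pool.Agent.H93.HQ.Targets

namespace Pool.Agent.H33.HQ
open MeasureTheory Set Filter Topology Pool.Agent.H80.HS Pool.Agent.H93.HQ
open scoped ContDiff ENNReal

lemma TR_tonelli {n : ℕ} (f : H n → ℝ≥0∞) (hf : Measurable f) :
    ∫⁻ x, f x = ∫⁻ a : V n, ∫⁻ b : V n, ∫⁻ t : ℝ, f (a, b, t) := by
  rw [Measure.volume_eq_prod, lintegral_prod _ hf.aemeasurable]
  refine lintegral_congr fun a => ?_
  have h : Measurable (fun y : V n × ℝ => f (a, y)) := hf.comp measurable_prodMk_left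
  rw [Measure.volume_eq_prod, lintegral_prod _ h.aemeasurable]

lemma TR_gen {n : ℕ} (f : H n → ℝ≥0∞) (y : H n) (hf : Measurable f) (ε : ℝ) :
    ∫⁻ x : H n, f (x.1 + y.1, x.2.1 + y.2.1,
      x.2.2 + (y.2.2 + ε * (inner ℝ y.2.1 x.1 - inner ℝ y.1 x.2.1))) = ∫⁻ x, f x := by
  have hm : Measurable (fun x : H n => f (x.1 + y.1, x.2.1 + y.2.1,
      x.2.2 + (y.2.2 + ε * (inner ℝ y.2.1 x.1 - inner ℝ y.1 x.2.1)))) := by
    refine hf.comp ?_
    have : Continuous (fun x : H n => ((x.1 + y.1, x.2.1 + y.2.1,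
      x.2.2 + (y.2.2 + ε * (inner ℝ y.2.1 x.1 - inner ℝ y.1 x.2.1))) : H n)) := by
      fun_prop
    exact this.measurable
  rw [TR_tonelli _ hm, TR_tonelli f hf]
  have h1 : ∀ a b : V n, ∫⁻ t : ℝ, f (a + y.1, b + y.2.1,
      t + (y.2.2 + ε * (inner ℝ y.2.1 a - inner ℝ y.1 b))) =
      ∫⁻ t : ℝ, f (a + y.1, b + y.2.1, t) := by
    intro a b
    exact lintegral_add_right_eq_self (fun t : ℝ => f (a + y.1, b + y.2.1, t)) _
  have h2 : ∀ a : V n, ∫⁻ b : V n, ∫⁻ t : ℝ, f (a + y.1, b + y.2.1, t) =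
      ∫⁻ b : V n, ∫⁻ t : ℝ, f (a + y.1, b, t) := by
    intro a
    exact lintegral_add_right_eq_self (fun b : V n => ∫⁻ t : ℝ, f (a + y.1, b, t)) _
  simp only [h1, h2]
  exact lintegral_add_right_eq_self (fun a : V n => ∫⁻ b : V n, ∫⁻ t : ℝ, f (a, b, t)) _

/-- left and right translations preserve the measure. -/
theorem pf_TR : U_TR := by
  intro n f y hf
  constructor
  · rw [← TR_gen f y hf 2]
    refine lintegral_congr fun x => ?_
    congr 1
    simp only [mul]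
    refine Prod.ext (add_comm _ _) (Prod.ext (add_comm _ _) ?_)
    simp only
    ring
  · rw [← TR_gen f y hf (-2)]
    refine lintegral_congr fun x => ?_
    congr 1
    simp only [mul]
    refine Prod.ext rfl (Prod.ext rfl ?_)
    simp only
    rw [real_inner_comm x.1 y.2.1, real_inner_comm x.2.1 y.1]
    ring

end Pool.Agent.H33.HQ
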