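import Pool.Agent.H93.HQ.Targets

namespace Pool.Agent.H33.HQ
open MeasureTheory Set Filter Topology Pool.Agent.H80.HS Pool.Agent.H93.HQ
open scoped ContDiff ENNReal

/-! ### the tail integral of a test function -/

lemma RF_phi {χ : ℝ → ℝ} (h1 : ContDiff ℝ ∞ χ) (h2 : HasCompactSupport χ) (a r : ℝ) :
    ∫ s in Ioi r, χ s = (∫ s in Ioi a, χ s) - ∫ s in a..r, χ s := by
  have hi : Integrable χ := h1.continuous.integrable_of_hasCompactSupport h2
  have := intervalIntegral.integral_interval_add_Ioi (a := a) (b := r)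
    hi.integrableOn hi.integrableOn
  linarith

lemma RF_deriv {χ : ℝ → ℝ} (h1 : ContDiff ℝ ∞ χ) (h2 : HasCompactSupport χ) (r : ℝ) :
    HasDerivAt (fun r => ∫ s in Ioi r, χ s) (-χ r) r := by
  have e : (fun r => ∫ s in Ioi r, χ s) = fun r => (∫ s in Ioi 0, χ s) - ∫ s in (0 : ℝ)..r, χ s := by
    funext r
    exact RF_phi h1 h2 0 r
  rw [e]
  have h3 : HasDerivAt (fun r => ∫ s in (0 : ℝ)..r, χ s) (χ r) r :=
    intervalIntegral.integral_hasDerivAt_right (h1.continuous.intervalIntegrable _ _)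
      (h1.continuous.stronglyMeasurableAtFilter _ _) h1.continuous.continuousAt
  exact h3.const_sub _

lemma RF_smooth {χ : ℝ → ℝ} (h1 : ContDiff ℝ ∞ χ) (h2 : HasCompactSupport χ) :
    ContDiff ℝ ∞ (fun r => ∫ s in Ioi r, χ s) := by
  rw [contDiff_infty_iff_deriv]
  refine ⟨fun r => (RF_deriv h1 h2 r).differentiableAt, ?_⟩
  have : deriv (fun r => ∫ s in Ioi r, χ s) = fun r => -χ r := by
    funext r
    exact (RF_deriv h1 h2 r).deriv
  rw [this]
  exact h1.neg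

lemma RF_eps {χ : ℝ → ℝ} (h3 : tsupport χ ⊆ Ioi 0) :
    ∃ ε : ℝ, 0 < ε ∧ ∀ s, s < ε → χ s = 0 := by
  have h0 : (0 : ℝ) ∉ tsupport χ := fun h => lt_irrefl (0 : ℝ) (mem_Ioi.1 (h3 h))
  rw [notMem_tsupport_iff_eventuallyEq] at h0
  obtain ⟨ε, hε, h⟩ := Metric.eventually_nhds_iff.1 h0
  refine ⟨ε, hε, fun s hs => ?_⟩
  by_cases hs0 : 0 < s
  · exact h (by rw [Real.dist_eq, sub_zero, abs_of_pos hs0]; exact hs)
  · by_contra hne
    exact hs0 (h3 (subset_tsupport _ hne))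

lemma RF_R {χ : ℝ → ℝ} (h2 : HasCompactSupport χ) :
    ∃ R : ℝ, 0 < R ∧ ∀ s, R ≤ s → χ s = 0 := by
  obtain ⟨R, hR⟩ := (HasCompactSupport.isCompact h2).isBounded.subset_closedBall (0 : ℝ)
  refine ⟨|R| + 1, by positivity, fun s hs => ?_⟩
  by_contra hne
  have h := hR (subset_tsupport _ hne)
  rw [Metric.mem_closedBall, Real.dist_eq, sub_zero] at h
  have h4 := le_abs_self R
  have h5 := le_abs_self s
  linarith

/-! ### the gauge -/

lemma RF_contDiff_N4 {n : ℕ} : ContDiff ℝ ∞ (N4 : H n → ℝ) := by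
  unfold N4 H93.HQ.sq
  have h1 : ContDiff ℝ ∞ (fun p : H n => ‖p.1‖ ^ 2) := contDiff_fst.norm_sq ℝ
  have h2 : ContDiff ℝ ∞ (fun p : H n => ‖p.2.1‖ ^ 2) :=
    (contDiff_fst.comp contDiff_snd).norm_sq ℝ
  have h3 : ContDiff ℝ ∞ (fun p : H n => p.2.2) := contDiff_snd.comp contDiff_snd
  exact ((h1.add h2).pow 2).add (h3.pow 2)

lemma RF_N4_pos {n : ℕ} {x : H n} (hx : 0 < N x) : 0 < N4 x := by
  rw [← N_pow_four]; positivity

lemma RF_contDiffAt_N {n : ℕ} {x : H n} (hx : 0 < N x) : ContDiffAt ℝ ∞ (N : H n → ℝ) x := by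
  have h4 := RF_N4_pos hx
  have h5 : ContDiffAt ℝ ∞ (fun x : H n => Real.sqrt (N4 x)) x :=
    RF_contDiff_N4.contDiffAt.sqrt h4.ne'
  exact h5.sqrt (Real.sqrt_pos.2 h4).ne'

lemma RF_N4_deriv {n : ℕ} (p : H n) : ∃ L : H n →L[ℝ] ℝ, HasFDerivAt (N4 : H n → ℝ) L p ∧
    ∀ v : H n, L v = 2 * sq p * (2 * inner ℝ p.1 v.1 + 2 * inner ℝ p.2.1 v.2.1) +
      2 * p.2.2 * v.2.2 := by
  have h1 : HasFDerivAt (fun p : H n => ‖p.1‖ ^ 2) _ p := (hasFDerivAt_fst (𝕜 := ℝ)).norm_sq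
  have h2 : HasFDerivAt (fun p : H n => ‖p.2.1‖ ^ 2) _ p :=
    ((hasFDerivAt_fst (𝕜 := ℝ)).comp p (hasFDerivAt_snd (𝕜 := ℝ))).norm_sq
  have h3 : HasFDerivAt (fun p : H n => p.2.2) _ p :=
    (hasFDerivAt_snd (𝕜 := ℝ)).comp p (hasFDerivAt_snd (𝕜 := ℝ))
  refine ⟨_, ((h1.add h2).pow 2).add (h3.pow 2), fun v => ?_⟩
  simp [H93.HQ.sq]
  ring

lemma RF_N_deriv {n : ℕ} {p : H n} (hp : 0 < N p) : ∃ L : H n →L[ℝ] ℝ,
    HasFDerivAt (N : H n → ℝ) L p ∧
    ∀ v : H n, L v = (sq p * (inner ℝ p.1 v.1 + inner ℝ p.2.1 v.2.1) +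
      p.2.2 * v.2.2 / 2) / N p ^ 3 := by
  obtain ⟨L, hL, hv⟩ := RF_N4_deriv p
  have h4 := RF_N4_pos hp
  have h5 := hL.sqrt h4.ne'
  have h6 := h5.sqrt (Real.sqrt_pos.2 h4).ne'
  refine ⟨_, h6, fun v => ?_⟩
  have e1 : Real.sqrt (N4 p) = N p ^ 2 := (N_sq p).symm
  have e2 : Real.sqrt (Real.sqrt (N4 p)) = N p := rfl
  rw [_root_.smul_apply, _root_.smul_apply, smul_eq_mul, smul_eq_mul, hv, e2, e1]
  field_simp

/-- functions of the gauge. -/
theorem pf_RF : U_RF := by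
  intro n χ h1 h2 h3
  obtain ⟨ε, hε, hχε⟩ := RF_eps h3
  obtain ⟨R, hR, hχR⟩ := RF_R h2
  have hconst : ∀ r, r < ε → ∫ s in Ioi r, χ s = ∫ s in Ioi 0, χ s := by
    intro r hr
    rw [RF_phi h1 h2 0 r]
    have : ∫ s in (0 : ℝ)..r, χ s = ∫ s in (0 : ℝ)..r, (0 : ℝ) := by
      refine intervalIntegral.integral_congr fun s hs => ?_
      refine hχε s (lt_of_le_of_lt hs.2 ?_)
      exact max_lt hε hr
    rw [this]
    simp
  have hloc : ∀ x : H n, N x < ε →
      (fun x : H n => ∫ s in Ioi (N x), χ s) =ᶠ[𝓝 x] fun _ => ∫ s in Ioi 0, χ s := by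
    intro x hx
    have : ∀ᶠ y in 𝓝 x, N y < ε := continuous_N.continuousAt.eventually_lt_const hx
    filter_upwards [this] with y hy
    exact hconst _ hy
  refine ⟨?_, ?_, ?_⟩
  · rw [contDiff_iff_contDiffAt]
    intro x
    by_cases hx : 0 < N x
    · exact (RF_smooth h1 h2).contDiffAt.comp x (RF_contDiffAt_N hx)
    · have hx' : N x < ε := lt_of_le_of_lt (not_lt.1 hx) hε
      exact contDiffAt_const.congr_of_eventuallyEq (hloc x hx')
  · refine HasCompactSupport.intro (isCompact_closedBall (0 : H n) (R + R ^ 2)) ?_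
    intro x hx
    have hN : R ≤ N x := by
      by_contra hlt
      rw [not_le] at hlt
      apply hx
      rw [mem_closedBall_zero_iff]
      have hN2 : N x ^ 2 ≤ R ^ 2 := pow_le_pow_left₀ (N_nonneg x) hlt.le 2
      have hsq : sq x ≤ R ^ 2 := by
        have := pow_le_pow_left₀ (mz_nonneg x) (mz_le_N x) 2
        rw [mz_sq] at this
        linarith
      have ha : ‖x.1‖ ≤ R := by
        refine abs_le_of_sq_le_sq' ?_ hR.le |>.2
        have : ‖x.1‖ ^ 2 ≤ sq x := by unfold H93.HQ.sq; nlinarith [sq_nonneg ‖x.2.1‖]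
        linarith
      have hb : ‖x.2.1‖ ≤ R := by
        refine abs_le_of_sq_le_sq' ?_ hR.le |>.2
        have : ‖x.2.1‖ ^ 2 ≤ sq x := by unfold H93.HQ.sq; nlinarith [sq_nonneg ‖x.1‖]
        linarith
      have hc : ‖x.2.2‖ ≤ R ^ 2 := by
        rw [Real.norm_eq_abs]
        refine abs_le_of_sq_le_sq ?_ (by positivity)
        have e1 : N x ^ 4 = sq x ^ 2 + x.2.2 ^ 2 := N_pow_four' x
        have e2 : N x ^ 4 = (N x ^ 2) ^ 2 := by ring
        have e3 : (N x ^ 2) ^ 2 ≤ (R ^ 2) ^ 2 := pow_le_pow_left₀ (by positivity) hN2 2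
        nlinarith [sq_nonneg (sq x)]
      have hR2 : 0 ≤ R ^ 2 := by positivity
      rw [Prod.norm_def, Prod.norm_def]
      refine max_le (by linarith) (max_le (by linarith) (by linarith))
    refine setIntegral_eq_zero_of_forall_eq_zero fun s hs => ?_
    exact hχR s (hN.trans (le_of_lt hs))
  · intro x
    by_cases hx : 0 < N x
    · obtain ⟨L, hL, hv⟩ := RF_N_deriv hx
      have hd : HasFDerivAt (fun x : H n => ∫ s in Ioi (N x), χ s) ((-χ (N x)) • L) x :=
        (RF_deriv h1 h2 (N x)).comp_hasFDerivAt x hL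
      have hX : ∀ j, X (fun x : H n => ∫ s in Ioi (N x), χ s) j x =
          -χ (N x) * ((sq x * x.1 j + x.2.2 * x.2.1 j) / N x ^ 3) := by
        intro j
        unfold X
        rw [hd.fderiv, _root_.smul_apply, smul_eq_mul, hv]
        simp only [EuclideanSpace.inner_single_right, inner_zero_right, one_mul, add_zero,
          conj_trivial]
        ring
      have hY : ∀ j, Y (fun x : H n => ∫ s in Ioi (N x), χ s) j x =
          -χ (N x) * ((sq x * x.2.1 j - x.2.2 * x.1 j) / N x ^ 3) := by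
        intro j
        unfold Y
        rw [hd.fderiv, _root_.smul_apply, smul_eq_mul, hv]
        simp only [EuclideanSpace.inner_single_right, inner_zero_right, one_mul, zero_add,
          conj_trivial]
        ring
      have hsum : ∑ j, (‖X (fun x : H n => ∫ s in Ioi (N x), χ s) j x‖ ^ 2 +
          ‖Y (fun x : H n => ∫ s in Ioi (N x), χ s) j x‖ ^ 2) =
          (|χ (N x)| * al x) ^ 2 := by
        have e1 : ∀ j, ‖X (fun x : H n => ∫ s in Ioi (N x), χ s) j x‖ ^ 2 +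
            ‖Y (fun x : H n => ∫ s in Ioi (N x), χ s) j x‖ ^ 2 =
            (χ (N x) ^ 2 * N x ^ 4 / N x ^ 6) * (‖x.1 j‖ ^ 2 + ‖x.2.1 j‖ ^ 2) := by
          intro j
          rw [hX, hY]
          simp only [Real.norm_eq_abs, sq_abs]
          rw [N_pow_four']
          field_simp
          ring
        rw [Finset.sum_congr rfl fun j _ => e1 j, ← Finset.mul_sum, Finset.sum_add_distrib,
          ← EuclideanSpace.norm_sq_eq, ← EuclideanSpace.norm_sq_eq, mul_pow, sq_abs, al, div_pow,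
          mz_sq]
        unfold H93.HQ.sq
        field_simp
      unfold grad
      rw [hsum, Real.sqrt_sq (mul_nonneg (abs_nonneg _) (al_nonneg x))]
    · have hx0 : N x = 0 := le_antisymm (not_lt.1 hx) (N_nonneg x)
      have hx' : N x < ε := by rw [hx0]; exact hε
      have hd : fderiv ℝ (fun x : H n => ∫ s in Ioi (N x), χ s) x = 0 := by
        rw [(hloc x hx').fderiv_eq]
        simp
      have hal : al x = 0 := by rw [al, hx0, div_zero]
      rw [hal, mul_zero]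
      unfold grad X Y
      rw [hd]
      simp

end Pool.Agent.H33.HQ
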