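import Pool.Agent.H93.HQ.Targets

namespace Pool.Agent.H33.HQ
open MeasureTheory Set Filter Topology Pool.Agent.H80.HS Pool.Agent.H93.HQ
open scoped ContDiff ENNReal

lemma N1_MX {p : ℝ} (hp : 1 < p) : 0 < MX p ∧ -(Real.log p + 1) ≤ Real.log (MX p) := by
  have hp0 : 0 < p := by linarith
  have hp1 : 0 < p - 1 := by linarith
  have h1 : 0 < (p - 1) ^ (1 - 1 / p) := Real.rpow_pos_of_pos hp1 _
  refine ⟨div_pos h1 hp0, ?_⟩
  unfold MX
  rw [Real.log_div h1.ne' hp0.ne', Real.log_rpow hp1]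
  have h2 : 1 - (p - 1)⁻¹ ≤ Real.log (p - 1) := Real.one_sub_inv_le_log_of_pos hp1
  have h3 : 0 < 1 - 1 / p := by
    rw [sub_pos, div_lt_one hp0]; exact hp
  have h4 : (1 - 1 / p) * (1 - (p - 1)⁻¹) ≤ (1 - 1 / p) * Real.log (p - 1) :=
    mul_le_mul_of_nonneg_left h2 h3.le
  have h5 : -1 ≤ (1 - 1 / p) * (1 - (p - 1)⁻¹) := by
    have : (1 - 1 / p) * (1 - (p - 1)⁻¹) = (p - 2) / p := by
      field_simp
      ring
    rw [this, le_div_iff₀ hp0]
    linarith
  linarith

/-- the lower bound and the main term. -/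
theorem pf_N1 (h : U_S0) : U_N1 := by
  obtain ⟨A0, hA⟩ := h
  refine ⟨|A0| + 7, fun n hn p hp1 hpQ => ?_⟩
  have hn1 : (1 : ℝ) ≤ n := by exact_mod_cast hn
  have hn0 : (0 : ℝ) < n := by linarith
  have hp0 : 0 < p := by linarith
  have hQp : 0 < 2 * (n : ℝ) + 2 - p := by linarith
  have hQ : 0 < 2 * (n : ℝ) + 2 := by linarith
  have hsg : 0 < sg n 0 := sg_pos hn le_rfl
  obtain ⟨hMX, hMXl⟩ := N1_MX hp1
  have hS := hA n hn
  set L : ℝ := Real.log ((n : ℝ) + 1) with hL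
  have hK : 0 < p ^ p / ((2 * (n : ℝ) + 2) * (2 * n + 2 - p) ^ (p - 1)) := by
    have h1 := Real.rpow_pos_of_pos hp0 p
    have h2 := Real.rpow_pos_of_pos hQp (p - 1)
    positivity
  set K : ℝ := p ^ p / ((2 * (n : ℝ) + 2) * (2 * n + 2 - p) ^ (p - 1)) with hKdef
  have hr : 0 < MX p / (sg n 0 * p) := by positivity
  have hLB : LB1 n p = K * (MX p / (sg n 0 * p)) ^ (p / (2 * (n : ℝ) + 2)) := rfl
  have hLBpos : 0 < LB1 n p := by
    rw [hLB]
    exact mul_pos hK (Real.rpow_pos_of_pos hr _)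
  refine ⟨hLBpos, ?_⟩
  have hpe : 0 < Real.pi * Real.exp 1 := by positivity
  have hpe1 : 1 ≤ Real.pi * Real.exp 1 := by
    have h1 := Real.pi_gt_three
    have h2 : 1 ≤ Real.exp 1 := Real.one_le_exp (by norm_num)
    nlinarith
  have hne : 0 < (n : ℝ) / (Real.pi * Real.exp 1) := by positivity
  have hMM : MM n p = ((n : ℝ) / (Real.pi * Real.exp 1)) ^ (p / 2) * K := by
    unfold MM
    rw [hKdef, mul_div_assoc]
  have hlog1 : Real.log (LB1 n p) = Real.log K +
      p / (2 * (n : ℝ) + 2) * (Real.log (MX p) - (Real.log (sg n 0) + Real.log p)) := by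
    rw [hLB, Real.log_mul hK.ne' (Real.rpow_pos_of_pos hr _).ne', Real.log_rpow hr,
      Real.log_div hMX.ne' (mul_pos hsg hp0).ne', Real.log_mul hsg.ne' hp0.ne']
  have hlog2 : Real.log (MM n p) =
      p / 2 * Real.log ((n : ℝ) / (Real.pi * Real.exp 1)) + Real.log K := by
    rw [hMM, Real.log_mul (Real.rpow_pos_of_pos hne _).ne' hK.ne', Real.log_rpow hne]
  rw [hlog1, hlog2]
  set l : ℝ := Real.log ((n : ℝ) / (Real.pi * Real.exp 1)) with hl
  have hl' : Real.log (Real.pi * Real.exp 1 / n) = -l := by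
    rw [hl, ← Real.log_inv, inv_div]
  rw [hl'] at hS
  have hS2 : Real.log (sg n 0) ≤ -((n : ℝ) * l) + A0 * L := by
    have := (abs_le.1 hS).2
    linarith
  have hL2 : Real.log 2 ≤ L := Real.log_le_log (by norm_num) (by linarith)
  have hL3 : 1 ≤ 2 * L := by
    have := Real.log_two_gt_d9
    linarith
  have hL0 : 0 < L := by linarith
  have hlL : l ≤ L := by
    refine Real.log_le_log hne ?_
    rw [div_le_iff₀ hpe]
    nlinarith
  have hpL : Real.log p ≤ 2 * L := by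
    have h1 : Real.log p ≤ Real.log (((n : ℝ) + 1) ^ 2) :=
      Real.log_le_log hp0 (by nlinarith)
    rw [Real.log_pow, Nat.cast_ofNat] at h1
    exact h1
  have hA0 : A0 * L ≤ |A0| * L := mul_le_mul_of_nonneg_right (le_abs_self _) hL0.le
  -- the inequality divided by `p`
  have key : l / 2 - (|A0| + 7) * L / n ≤
      1 / (2 * (n : ℝ) + 2) * (Real.log (MX p) - (Real.log (sg n 0) + Real.log p)) := by
    have h1 : (n : ℝ) * l - |A0| * L - 2 * Real.log p - 1 ≤
        Real.log (MX p) - (Real.log (sg n 0) + Real.log p) := by linarith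
    have h2 : 1 / (2 * (n : ℝ) + 2) * ((n : ℝ) * l - |A0| * L - 2 * Real.log p - 1) ≤
        1 / (2 * (n : ℝ) + 2) * (Real.log (MX p) - (Real.log (sg n 0) + Real.log p)) :=
      mul_le_mul_of_nonneg_left h1 (by positivity)
    refine le_trans ?_ h2
    rw [one_div, ← div_eq_inv_mul, le_div_iff₀ hQ]
    have h3 : (|A0| + 7) * L ≤ (|A0| + 7) * L / n * (2 * (n : ℝ) + 2) := by
      rw [div_mul_eq_mul_div, le_div_iff₀ hn0]
      have : 0 ≤ (|A0| + 7) * L := by positivity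
      nlinarith
    nlinarith
  have h5 := mul_le_mul_of_nonneg_left key hp0.le
  have e1 : p * (l / 2 - (|A0| + 7) * L / n) = p / 2 * l - (|A0| + 7) * p * L / n := by ring
  have e2 : p * (1 / (2 * (n : ℝ) + 2) *
      (Real.log (MX p) - (Real.log (sg n 0) + Real.log p))) =
      p / (2 * (n : ℝ) + 2) * (Real.log (MX p) - (Real.log (sg n 0) + Real.log p)) := by ring
  rw [e1, e2] at h5
  linarith

end Pool.Agent.H33.HQ
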